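import Pool.Agent.Helper6.LPA.St
import Pool.Agent.Helper9.SU.M_ALL

/-!
# Project LPA, module SVQ: the sieve with the relative error `ε / B ^ K`
-/

set_option autoImplicit false

noncomputable section

namespace Pool.Agent.Helper80.LPA

open Finset
open Pool.Agent.Helper6.LP Pool.Agent.Helper6.LPA

private lemma card_le_of_lt {l : ℕ} {S : Finset ℕ} (h : ∀ s ∈ S, s < l) : S.card ≤ l := by
  have h1 : S ⊆ range l := fun s hs => mem_range.2 (h s hs)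
  simpa using card_le_card h1

/-- Module SVQ. -/
theorem hSVQ (hF : StFLQ) : StSVQ := by
  intro ε K hε
  obtain ⟨B, hB1, hB⟩ := hF 6 (ε / 2 ^ K) K (by norm_num) (by positivity)
  refine ⟨2 * B, by omega, ?_⟩
  intro z M hz Q T S hQp hTp hQT hS
  have hz1 : (1 : ℝ) ≤ z := by exact_mod_cast (by omega : 1 ≤ z)
  set g : ℕ → ℝ := fun l => ((S l).card : ℝ) / l with hg
  have hg3 : ∀ l ∈ Q, 0 ≤ g l ∧ g l ≤ 6 / l ∧ g l ≤ 1 / 2 := by
    intro l hl
    obtain ⟨hp, h5, _, hc⟩ := hQp l hl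
    have hcR : ((S l).card : ℝ) ≤ 6 := by exact_mod_cast hc
    have h1 : (12 : ℝ) ≤ l := by exact_mod_cast h5
    refine ⟨by rw [hg]; positivity, ?_, ?_⟩
    · rw [hg]
      exact div_le_div_of_nonneg_right hcR (by linarith)
    · rw [hg]
      show ((S l).card : ℝ) / l ≤ 1 / 2
      rw [div_le_div_iff₀ (by linarith) (by norm_num)]
      linarith
  have hcl : ∀ l ∈ Q ∪ T, ((S l).card : ℝ) ≤ l := fun l hl => by
    exact_mod_cast card_le_of_lt (hS l hl)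
  have hT0 : (0 : ℝ) ≤ ∏ l ∈ T, (l : ℝ) := prod_nonneg fun _ _ => Nat.cast_nonneg _
  have hgT : 0 ≤ ∏ l ∈ T, g l := prod_nonneg fun l _ => by
    rw [hg]
    positivity
  have hfin := hB z hz Q (fun p hp => ⟨(hQp p hp).1, (hQp p hp).2.2.1⟩) g hg3 ℕ
    ((Icc 1 M).filter (fun m => ∀ l ∈ T, m % l ∈ S l))
    (fun l n => n % l ∈ S l) ((M : ℝ) * ∏ l ∈ T, g l) ((z : ℝ) ^ B * ∏ l ∈ T, (l : ℝ))
    (mul_nonneg (Nat.cast_nonneg M) hgT)
    (mul_nonneg (by positivity) hT0) (by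
      intro T' hT' hTz
      have hdis : Disjoint T T' := (hQT.mono_left hT').symm
      have h1 := Pool.Agent.Helper9.SU.cntT_ALL 0 M S (T ∪ T') (by
        intro l hl
        rcases mem_union.1 hl with h | h
        · exact ⟨hTp l h, hS l (mem_union_right _ h)⟩
        · exact ⟨(hQp l (hT' h)).1, hS l (mem_union_left _ (hT' h))⟩) 1 0 le_rfl
        (fun l _ => Nat.coprime_one_right l)
      have h2 : (Ioc 0 (0 + M)).filter (fun e => e % 1 = 0 % 1 ∧ ∀ l ∈ T ∪ T', e % l ∈ S l) =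
          ((Icc 1 M).filter (fun m => ∀ l ∈ T, m % l ∈ S l)).filter
            (fun e => ∀ l ∈ T', e % l ∈ S l) := by
        ext e
        simp only [mem_filter, mem_Ioc, mem_Icc, Nat.mod_one, true_and, mem_union]
        constructor
        · rintro ⟨h3, h4⟩
          exact ⟨⟨by omega, fun l hl => h4 l (Or.inl hl)⟩, fun l hl => h4 l (Or.inr hl)⟩
        · rintro ⟨⟨h3, h4⟩, h5⟩
          refine ⟨by omega, fun l hl => ?_⟩
          rcases hl with h | h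
          · exact h4 l h
          · exact h5 l h
      rw [h2, Nat.cast_one, div_one, prod_union hdis, prod_union hdis, ← mul_assoc] at h1
      have h1' : |((((Icc 1 M).filter (fun m => ∀ l ∈ T, m % l ∈ S l)).filter
          (fun e => ∀ l ∈ T', e % l ∈ S l)).card : ℝ) -
          (M : ℝ) * (∏ l ∈ T, g l) * ∏ l ∈ T', g l| ≤
          (∏ l ∈ T, ((S l).card : ℝ)) * ∏ l ∈ T', ((S l).card : ℝ) := by convert h1 using 1
      refine le_trans (by convert h1' using 1) ?_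
      have h3 : ∏ l ∈ T, ((S l).card : ℝ) ≤ ∏ l ∈ T, (l : ℝ) :=
        prod_le_prod (fun _ _ => Nat.cast_nonneg _) fun l hl => hcl l (mem_union_right _ hl)
      have h4 : ∏ l ∈ T', ((S l).card : ℝ) ≤ (z : ℝ) ^ B := by
        calc ∏ l ∈ T', ((S l).card : ℝ) ≤ ∏ l ∈ T', (l : ℝ) :=
              prod_le_prod (fun _ _ => Nat.cast_nonneg _)
                fun l hl => hcl l (mem_union_left _ (hT' hl))
          _ = ((∏ l ∈ T', l : ℕ) : ℝ) := by push_cast; rfl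
          _ ≤ ((z ^ B : ℕ) : ℝ) := by exact_mod_cast hTz
          _ = (z : ℝ) ^ B := by push_cast; rfl
      have h5 : (0 : ℝ) ≤ ∏ l ∈ T', ((S l).card : ℝ) := prod_nonneg fun _ _ => Nat.cast_nonneg _
      calc (∏ l ∈ T, ((S l).card : ℝ)) * ∏ l ∈ T', ((S l).card : ℝ)
          ≤ (∏ l ∈ T, (l : ℝ)) * (z : ℝ) ^ B := mul_le_mul h3 h4 h5 hT0
        _ = (z : ℝ) ^ B * ∏ l ∈ T, (l : ℝ) := mul_comm _ _)
  have e1 : ((Icc 1 M).filter (fun m => ∀ l ∈ T, m % l ∈ S l)).filter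
      (fun a => ∀ p ∈ Q, ¬ a % p ∈ S p) =
      (Icc 1 M).filter (fun m : ℕ => (∀ l ∈ Q, m % l ∉ S l) ∧ ∀ l ∈ T, m % l ∈ S l) := by
    ext e
    simp only [mem_filter]
    tauto
  have e2 : ε / 2 ^ K / (B : ℝ) ^ K = ε / ((2 * B : ℕ) : ℝ) ^ K := by
    rw [div_div, ← mul_pow]
    push_cast
    rfl
  have e3 : (z : ℝ) ^ B * ((z : ℝ) ^ B * ∏ l ∈ T, (l : ℝ)) =
      (z : ℝ) ^ (2 * B) * ∏ l ∈ T, (l : ℝ) := by
    rw [← mul_assoc, ← pow_add, two_mul]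
  have e4 : (M : ℝ) * (∏ l ∈ T, g l) * ∏ l ∈ Q, (1 - g l) =
      M * ((∏ l ∈ Q, (1 - g l)) * ∏ l ∈ T, g l) := by ring
  rw [e2, e3, e4] at hfin
  have e5 : (((((Icc 1 M).filter (fun m => ∀ l ∈ T, m % l ∈ S l)).filter
      (fun a => ∀ p ∈ Q, ¬ a % p ∈ S p)).card : ℕ) : ℝ) =
      (((Icc 1 M).filter (fun m : ℕ => (∀ l ∈ Q, m % l ∉ S l) ∧ ∀ l ∈ T, m % l ∈ S l)).card : ℝ) := by
    rw [e1]
  have hfin' : |(((((Icc 1 M).filter (fun m => ∀ l ∈ T, m % l ∈ S l)).filter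
      (fun a => ∀ p ∈ Q, ¬ a % p ∈ S p)).card : ℕ) : ℝ) -
      M * ((∏ l ∈ Q, (1 - g l)) * ∏ l ∈ T, g l)| ≤
      ε / ((2 * B : ℕ) : ℝ) ^ K * (M * ((∏ l ∈ Q, (1 - g l)) * ∏ l ∈ T, g l)) +
      (z : ℝ) ^ (2 * B) * ∏ l ∈ T, (l : ℝ) := by
    convert hfin using 1
  rw [e5] at hfin'
  convert hfin' using 1

end Pool.Agent.Helper80.LPA
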